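import Pool.Agent.Lib.TGJ_h70.Sep
import Pool.Agent.Lib.TGJ.Iface

/-!
# TANK G, block C, row (O), part 4: the local ring of a point with generic centre is the local ring
of `k[E]`; derivations
-/

set_option autoImplicit false

open Polynomial

namespace Pool.Agent.TGJ70

open Pool.Agent.TG (ncl Ov ZDim IsMin IsModel NV RV mem_ncl_of_root exists_poly_of_mem_ncl
  exists_den le_ncl ncl_mono locV_ncl_locV ncl_ncl)
open Pool.Agent.TGFOD
open Pool.Agent.TGJ
open Pool.Agent.TGh53 (Nrm frac adj etale_ncl le_adj mem_adj adj_le)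
open Pool.Agent.LU2 (locV le_locV locV_mono locV_le locV_inv locV_mem locV_locV)

universe u

variable {k K : Type u} [Field k] [Field K] [Algebra k K] {κ : Subfield k}
  {E : IntermediateField κ K} {n : ℕ} {V : ValuationSubring K}

theorem exists_mul_mem_ncl {R : Subalgebra k K} {a : K} (ha : a ∈ ncl (locV V R)) :
    ∃ s ∈ R, V.valuation s = 1 ∧ s * a ∈ ncl R := by
  obtain ⟨p, hp, hc, h0⟩ := exists_poly_of_mem_ncl ha
  obtain ⟨s, hs, hvs, hsp⟩ := exists_den R p hc
  refine ⟨s, hs, hvs, ?_⟩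
  refine mem_ncl_of_root (p.scaleRoots s) ((Polynomial.monic_scaleRoots_iff s).2 hp)
    (fun i => le_ncl R ?_) ?_
  · rw [Polynomial.coeff_scaleRoots]
    rcases lt_trichotomy i p.natDegree with h | h | h
    · have h3 : p.coeff i * s ^ (p.natDegree - i) =
          (s * p.coeff i) * s ^ (p.natDegree - i - 1) := by
        obtain ⟨j, hj⟩ := Nat.exists_eq_add_of_lt h
        rw [show p.natDegree - i = j + 1 by omega, show j + 1 - 1 = j by omega]
        ring
      rw [h3]
      exact R.mul_mem (hsp i) (R.pow_mem hs _)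
    · rw [h, hp.coeff_natDegree, Nat.sub_self, pow_zero, mul_one]
      exact R.one_mem
    · rw [Polynomial.coeff_eq_zero_of_natDegree_lt h, zero_mul]
      exact R.zero_mem
  · have h4 := Polynomial.scaleRoots_eval₂_mul (p := p) (f := RingHom.id K) (r := a) (s := s)
    simp only [RingHom.id_apply] at h4
    rw [← Polynomial.eval₂_id, h4, Polynomial.eval₂_id, h0, mul_zero]

theorem ne_of_val {a : K} (h : V.valuation a = 1) : a ≠ 0 := by
  rintro rfl
  simp at h

theorem nrm_locV {A : Subalgebra k K} (hA : Nrm A) : Nrm (locV V A) := by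
  intro x hx hf
  obtain ⟨s, hs, hvs, hsx⟩ := exists_mul_mem_ncl hx
  obtain ⟨b, hb, c, hc, hc0, rfl⟩ := hf
  obtain ⟨b1, hb1, b2, hb2, hvb2, rfl⟩ := hb
  obtain ⟨c1, hc1, c2, hc2, hvc2, rfl⟩ := hc
  have hs0 := ne_of_val hvs
  have hb20 := ne_of_val hvb2
  have hc20 := ne_of_val hvc2
  have hc10 : c1 ≠ 0 := fun h => hc0 (by rw [h, zero_div])
  have h1 : s * (b1 / b2 / (c1 / c2)) ∈ A := by
    refine hA _ hsx ⟨s * b1 * c2, A.mul_mem (A.mul_mem hs hb1) hc2, b2 * c1, A.mul_mem hb2 hc1,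
      mul_ne_zero hb20 hc10, ?_⟩
    field_simp
  refine ⟨_, h1, s, hs, hvs, ?_⟩
  rw [mul_div_cancel_left₀ _ hs0]

theorem nrm_of_isIntegrallyClosed {A : Subalgebra k K} [IsIntegrallyClosed A] : Nrm A := by
  let : Algebra (FractionRing A) K := FractionRing.liftAlgebra A K
  have : IsScalarTower A (FractionRing A) K := FractionRing.isScalarTower_liftAlgebra A K
  intro x hx hf
  obtain ⟨b, hb, c, hc, hc0, rfl⟩ := hf
  have h1 : algebraMap (FractionRing A) K
      (algebraMap A _ (⟨b, hb⟩ : A) / algebraMap A _ (⟨c, hc⟩ : A)) = b / c := by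
    rw [map_div₀, ← IsScalarTower.algebraMap_apply, ← IsScalarTower.algebraMap_apply]
    rfl
  have h2 : IsIntegral A (algebraMap A (FractionRing A) (⟨b, hb⟩ : A) /
      algebraMap A _ (⟨c, hc⟩ : A)) := by
    have h3 : IsIntegral A (algebraMap (FractionRing A) K
      (algebraMap A _ (⟨b, hb⟩ : A) / algebraMap A _ (⟨c, hc⟩ : A))) := by
      rw [h1]
      exact hx
    exact (isIntegral_algebraMap_iff (algebraMap (FractionRing A) K).injective).1 h3
  obtain ⟨a, ha⟩ := IsIntegrallyClosed.isIntegral_iff.1 h2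
  have h4 : (a : K) = b / c := by
    rw [← h1, ← ha, ← IsScalarTower.algebraMap_apply]
    rfl
  rw [← h4]
  exact a.2

theorem nrm_adjoin {y : Fin n → K} (hy : AlgebraicIndependent k y) :
    Nrm (Algebra.adjoin k (Set.range y)) := by
  have : IsIntegrallyClosed (Algebra.adjoin k (Set.range y)) :=
    IsIntegrallyClosed.of_equiv hy.aevalEquiv.toRingEquiv
  exact nrm_of_isIntegrallyClosed

variable {y : Fin n → K} {θ : K} {Φ : K[X]}

theorem SepData.poly_mem (hS : SepData k E y θ Φ) {r : K}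
    (hr : r ∈ Algebra.adjoin κ (Set.range y)) :
    r ∈ E ∧ r ∈ Algebra.adjoin k (Set.range y) := by
  induction hr using Algebra.adjoin_induction with
  | mem a ha =>
    refine ⟨?_, Algebra.subset_adjoin ha⟩
    obtain ⟨i, rfl⟩ := ha
    exact hS.y_mem i
  | algebraMap c => exact ⟨E.algebraMap_mem c, (Algebra.adjoin k (Set.range y)).algebraMap_mem
      (c : k)⟩
  | add a b _ _ ha hb => exact ⟨E.add_mem ha.1 hb.1, add_mem ha.2 hb.2⟩
  | mul a b _ _ ha hb => exact ⟨E.mul_mem ha.1 hb.1, mul_mem ha.2 hb.2⟩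

theorem SepData.coeff_mem (hS : SepData k E y θ Φ)
    (hE : ∀ a ∈ E, a ≠ 0 → V.valuation a = 1) {c : K}
    (hc : ∃ r ∈ Algebra.adjoin κ (Set.range y), ∃ s ∈ Algebra.adjoin κ (Set.range y),
      s ≠ 0 ∧ c = r / s) :
    c ∈ E ∧ c ∈ locV V (Algebra.adjoin k (Set.range y)) := by
  obtain ⟨r, hr, s, hs, hs0, rfl⟩ := hc
  have h1 := hS.poly_mem hr
  have h2 := hS.poly_mem hs
  exact ⟨E.div_mem h1.1 h2.1, r, h1.2, s, h2.2, hE s h2.1 hs0, rfl⟩

theorem eval_mem_subalgebra {A : Subalgebra k K} {P : K[X]} (hP : ∀ i, P.coeff i ∈ A) {a : K}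
    (ha : a ∈ A) : P.eval a ∈ A := by
  rw [eval_eq_sum, Polynomial.sum]
  exact sum_mem fun i _ => mul_mem (hP i) (pow_mem ha i)

theorem eval_mem_E {P : K[X]} (hP : ∀ i, P.coeff i ∈ E) {a : K}
    (ha : a ∈ E) : P.eval a ∈ E := by
  rw [eval_eq_sum, Polynomial.sum]
  exact sum_mem fun i _ => mul_mem (hP i) (pow_mem ha i)

theorem derivative_coeff_mem {P : K[X]} (hP : ∀ i, P.coeff i ∈ E) (i : ℕ) :
    P.derivative.coeff i ∈ E := by
  rw [coeff_derivative]
  exact mul_mem (hP _) (by exact_mod_cast natCast_mem E (i + 1))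

/-- **The local ring of a point with generic centre.** -/
theorem SepData.locV_ncl_le (hS : SepData k E y θ Φ) (hV : Ov k V)
    (hE : ∀ a ∈ E, a ≠ 0 → V.valuation a = 1) {R : Subalgebra k K}
    (hR : R ≤ locV V (Algebra.adjoin k (E : Set K))) :
    locV V (ncl R) ≤ locV V (Algebra.adjoin k (E : Set K)) := by
  set A := locV V (Algebra.adjoin k (Set.range y)) with hA
  set B := Algebra.adjoin k (E : Set K) with hB
  have hEV : ∀ a ∈ E, a ∈ V := fun a ha => by
    by_cases h0 : a = 0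
    · rw [h0]
      exact V.zero_mem
    · rw [← V.valuation_le_one_iff, hE a ha h0]
  have hAV : ∀ a ∈ A, a ∈ V := by
    refine locV_mem fun a ha => ?_
    have h1 : Algebra.adjoin k (Set.range y) ≤ Pool.Agent.TG.valg hV := by
      refine Algebra.adjoin_le ?_
      rintro _ ⟨i, rfl⟩
      exact hEV _ (hS.y_mem i)
    exact h1 ha
  have hc : ∀ i, Φ.coeff i ∈ A := fun i => (hS.coeff_mem hE (hS.coeff i)).2
  have hcE : ∀ i, Φ.coeff i ∈ E := fun i => (hS.coeff_mem hE (hS.coeff i)).1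
  have h1 : V.valuation (Φ.derivative.eval θ) = 1 :=
    hE _ (eval_mem_E (derivative_coeff_mem hcE) hS.θ_mem) hS.simple
  have hEadj : ∀ e ∈ E, e ∈ adj A θ := by
    intro e he
    obtain ⟨P, hP, rfl⟩ := hS.gen e he
    exact eval_mem_subalgebra (fun i => le_adj A θ (hS.coeff_mem hE (hP i)).2) (mem_adj A θ)
  have hBadj : B ≤ adj A θ := Algebra.adjoin_le hEadj
  have hgen : ∀ x : K, x ∈ frac (adj A θ) := by
    intro x
    have h2 : x ∈ IntermediateField.adjoin k (E : Set K) := by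
      rw [hS.all]
      trivial
    obtain ⟨r, hr, s, hs, hrs⟩ := IntermediateField.mem_adjoin_iff_div.1 h2
    by_cases hs0 : s = 0
    · refine ⟨0, Subalgebra.zero_mem _, 1, Subalgebra.one_mem _, one_ne_zero, ?_⟩
      rw [hrs, hs0, div_zero, zero_div]
    · exact ⟨r, hBadj hr, s, hBadj hs, hs0, hrs⟩
  have hmain : locV V (ncl A) = locV V (adj A θ) :=
    etale_ncl hAV (nrm_locV (nrm_adjoin hS.ind)) hS.monic hc hS.root h1 hgen
  have hAB : A ≤ locV V B := by
    refine locV_mono (Algebra.adjoin_le ?_)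
    rintro _ ⟨i, rfl⟩
    exact Algebra.subset_adjoin (hS.y_mem i)
  have hadjB : locV V (adj A θ) ≤ locV V B := by
    refine locV_le (adj_le hAB (le_locV _ (Algebra.subset_adjoin hS.θ_mem))) fun _ h h1 =>
      locV_inv h h1
  calc locV V (ncl R) ≤ locV V (ncl (locV V B)) := locV_mono (ncl_mono hR)
    _ = locV V (ncl B) := locV_ncl_locV _
    _ ≤ locV V (ncl (locV V (adj A θ))) := locV_mono (ncl_mono (hBadj.trans (le_locV _)))
    _ = locV V (ncl (locV V (ncl A))) := by rw [hmain]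
    _ = locV V (ncl (ncl A)) := locV_ncl_locV _
    _ = locV V (adj A θ) := by rw [ncl_ncl, hmain]
    _ ≤ locV V B := hadjB

/-! ### Derivations -/

theorem der_frac (D : Derivation k K K) {a b : K} (hb : b ≠ 0) :
    D (a / b) = (b * D a - a * D b) / b ^ 2 := by
  rw [Derivation.leibniz_div]
  simp only [smul_eq_mul]
  field_simp

/-- Derivations of the basis preserve `E`. -/
theorem SepData.der_mem (hS : SepData k E y θ Φ) (D : Derivation k K K)
    (hD : ∀ i, D (y i) ∈ E) : ∀ e ∈ E, D e ∈ E := by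
  have hpoly : ∀ r ∈ Algebra.adjoin κ (Set.range y), D r ∈ E := by
    intro r hr
    induction hr using Algebra.adjoin_induction with
    | mem a ha => obtain ⟨i, rfl⟩ := ha; exact hD i
    | algebraMap c =>
      have h1 : D (algebraMap κ K c) = 0 := D.map_algebraMap (c : k)
      rw [h1]
      exact E.zero_mem
    | add a b _ _ ha hb => rw [map_add]; exact E.add_mem ha hb
    | mul a b ha' hb' ha hb =>
      rw [D.leibniz, smul_eq_mul, smul_eq_mul]
      exact E.add_mem (E.mul_mem (hS.poly_mem ha').1 hb) (E.mul_mem (hS.poly_mem hb').1 ha)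
  have hfrac : ∀ c : K, (∃ r ∈ Algebra.adjoin κ (Set.range y),
      ∃ s ∈ Algebra.adjoin κ (Set.range y), s ≠ 0 ∧ c = r / s) → c ∈ E ∧ D c ∈ E := by
    rintro c ⟨r, hr, s, hs, hs0, rfl⟩
    have h1 := (hS.poly_mem hr).1
    have h2 := (hS.poly_mem hs).1
    refine ⟨E.div_mem h1 h2, ?_⟩
    rw [der_frac D hs0]
    exact E.div_mem (E.sub_mem (E.mul_mem h2 (hpoly r hr)) (E.mul_mem h1 (hpoly s hs)))
      (pow_mem h2 2)
  intro e he
  obtain ⟨P, hc, h0, h1⟩ := hS.eq e he
  have h2 := der_eval D P e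
  rw [h0, map_zero] at h2
  have h3 : D e = - (∑ i ∈ P.support, e ^ i * D (P.coeff i)) / P.derivative.eval e := by
    rw [eq_div_iff h1]
    linear_combination -h2
  rw [h3]
  exact E.div_mem (E.neg_mem (sum_mem fun i _ => mul_mem (pow_mem he i) (hfrac _ (hc i)).2))
    (eval_mem_E (derivative_coeff_mem fun i => (hfrac _ (hc i)).1) he)

/-- Derivations preserving `E` preserve the localisations of `k[E]`. -/
theorem der_locV (D : Derivation k K K) (hD : ∀ e ∈ E, D e ∈ E) :
    ∀ a ∈ locV V (Algebra.adjoin k (E : Set K)),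
      D a ∈ locV V (Algebra.adjoin k (E : Set K)) := by
  have h1 : ∀ a ∈ Algebra.adjoin k (E : Set K), D a ∈ Algebra.adjoin k (E : Set K) := by
    intro a ha
    induction ha using Algebra.adjoin_induction with
    | mem a ha => exact Algebra.subset_adjoin (hD a ha)
    | algebraMap c => rw [D.map_algebraMap]; exact Subalgebra.zero_mem _
    | add a b _ _ ha hb => rw [map_add]; exact add_mem ha hb
    | mul a b ha' hb' ha hb =>
      rw [D.leibniz, smul_eq_mul, smul_eq_mul]
      exact add_mem (mul_mem ha' hb) (mul_mem hb' ha)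
  rintro _ ⟨a, ha, b, hb, hvb, rfl⟩
  rw [der_frac D (ne_of_val hvb)]
  refine ⟨_, sub_mem (mul_mem hb (h1 a ha)) (mul_mem ha (h1 b hb)), _, pow_mem hb 2, ?_, rfl⟩
  rw [map_pow, hvb, one_pow]

/-- Derivations preserving a point preserve its prime divisors. -/
theorem pres_isDiv {S : Subalgebra k K} {v : ValuationSubring K} (hv : IsDiv S v)
    (D : Derivation k K K) (hD : ∀ a ∈ S, D a ∈ S) : Pres v.toSubring D := by
  intro x hx
  obtain ⟨a, ha, b, hb, hvb, hab⟩ := hv.loc x hx
  have hb0 := ne_of_val hvb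
  have h1 : x = a / b := by rw [← hab, mul_div_cancel_right₀ _ hb0]
  have h2 : (b ^ 2)⁻¹ ∈ v := by
    rw [← v.valuation_le_one_iff, map_inv₀, map_pow, hvb, one_pow, inv_one]
  rw [h1, der_frac D hb0, div_eq_mul_inv]
  exact v.mul_mem _ _ (v.sub_mem (v.mul_mem _ _ (hv.le b hb) (hv.le _ (hD a ha)))
    (v.mul_mem _ _ (hv.le a ha) (hv.le _ (hD b hb)))) h2

end Pool.Agent.TGJ70
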