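import Pool.Agent.Lib.TGJ_h70.Count
import Pool.Agent.Lib.TGJ_h70.Loc
import Pool.Agent.Lib.TGJ.NVPt
import Pool.Agent.Lib.TGJ_h11.Curve
import Pool.Agent.Lib.TGJ_h25.TopDefs

/-!
# TANK G, block C, row (O): no common zeros; the points over `O = [0 : .. : 0 : 1]`
-/

set_option autoImplicit false

open Polynomial

namespace Pool.Agent.TGJ70

open Pool.Agent.TG (ncl Ov ZDim IsMin IsModel NV RV valg mem_valg Bir)
open Pool.Agent.TGFOD
open Pool.Agent.TGJ
open Pool.Agent.LU2 (locV le_locV locV_mono locV_le locV_inv locV_mem locV_locV)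

universe u

variable {k K : Type u} [Field k] [Field K] [Algebra k K] {κ : Subfield k}
  {E : IntermediateField κ K} {m : ℕ} {V : ValuationSubring K}

/-- A minimal element among the `β j`, the residues, and the values of the forms. -/
theorem exists_point {ι J : Type} [Fintype J] (hV : ZDim k V) {β : J → K}
    (hne : Submodule.span k (Set.range β) ≠ ⊥) {s : ι × J → k} {h : ι → K}
    (hh : ∀ i, h i = ∑ j, s (i, j) • β j) :
    ∃ (j₀ : J) (ρ : valg hV.ov →ₐ[k] k) (c : J → k), ResAt V ρ ∧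
      IsMin V (Submodule.span k (Set.range β)) (β j₀) ∧ c j₀ = 1 ∧
      (∀ j, ∃ hj : β j / β j₀ ∈ V, ρ ⟨β j / β j₀, hj⟩ = c j) ∧
      ∀ i, ∃ hi : h i / β j₀ ∈ V, ρ ⟨h i / β j₀, hi⟩ = ∑ j, s (i, j) * c j := by
  classical
  have h1 : ∃ x ∈ Finset.univ.image β, x ≠ 0 := by
    by_contra hcon
    push Not at hcon
    refine hne (Submodule.span_eq_bot.2 ?_)
    rintro _ ⟨j, rfl⟩
    exact hcon _ (Finset.mem_image.2 ⟨j, Finset.mem_univ _, rfl⟩)
  obtain ⟨f, hf, hmin⟩ := Pool.Agent.TG.exists_isMin_mem hV.ov _ h1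
  obtain ⟨j₀, -, rfl⟩ := Finset.mem_image.1 hf
  have h2 : ((Finset.univ.image β : Finset K) : Set K) = Set.range β := by simp
  rw [h2] at hmin
  obtain ⟨ρ, hρ⟩ := exists_resAt (S := valg hV.ov) (fun a ha => ha) hV
  have hm : ∀ j, β j / β j₀ ∈ V := fun j => hmin.div _ (Submodule.subset_span ⟨j, rfl⟩)
  refine ⟨j₀, ρ, fun j => ρ ⟨β j / β j₀, hm j⟩, hρ, hmin, ?_, fun j => ⟨hm j, rfl⟩, fun i => ?_⟩
  · have h3 : (⟨β j₀ / β j₀, hm j₀⟩ : valg hV.ov) = 1 := Subtype.ext (div_self hmin.ne)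
    change ρ (⟨β j₀ / β j₀, hm j₀⟩ : valg hV.ov) = 1
    rw [h3, map_one]
  · have h3 : h i / β j₀ ∈ V := hmin.div _ (by
      rw [hh]
      exact sum_mem fun j _ => Submodule.smul_mem _ _ (Submodule.subset_span ⟨j, rfl⟩))
    refine ⟨h3, ?_⟩
    have h4 : (⟨h i / β j₀, h3⟩ : valg hV.ov) =
        ∑ j, s (i, j) • (⟨β j / β j₀, hm j⟩ : valg hV.ov) := by
      apply Subtype.ext
      rw [AddSubmonoidClass.coe_finsetSum]
      simp only [Subalgebra.coe_smul]
      rw [hh, Finset.sum_div]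
      refine Finset.sum_congr rfl fun j _ => ?_
      rw [smul_div_assoc]
    rw [h4, map_sum]
    refine Finset.sum_congr rfl fun j _ => ?_
    rw [map_smul, smul_eq_mul]

theorem res_mem_Res (hV : ZDim k V) {ρ : valg hV.ov →ₐ[k] k} (hρ : ResAt V ρ) {e : K}
    (he : e ∈ E) (h : e ∈ V) : ρ ⟨e, h⟩ ∈ Res k V (E : Set K) := ⟨e, he, hρ ⟨e, h⟩⟩

/-- **No common zeros.** -/
theorem exists_isMin_form {J : Type} [Fintype J] {x : Fin (m + 1) → K} (hFD : FD κ E x)
    (hV : ZDim k V) {β : J → K} (hβ : ∀ j, β j ∈ E)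
    (hne : Submodule.span k (Set.range β) ≠ ⊥) {s : Fin (m + 2) × J → k} {h : Fin (m + 2) → K}
    (hs : AlgebraicIndependent κ s) (hh : ∀ i, h i = ∑ j, s (i, j) • β j) :
    ∃ j, IsMin V (Submodule.span k (Set.range β)) (h j) := by
  classical
  obtain ⟨j₀, ρ, c, hρ, hmin, hc0, hc, hh'⟩ := exists_point hV hne hh
  by_contra hcon
  push Not at hcon
  have h0 : ∀ i ∈ (Finset.univ : Finset (Fin (m + 2))), ∑ j, s (i, j) * c j = 0 := by
    intro i _
    by_contra hne0
    obtain ⟨hi, hi'⟩ := hh' i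
    rw [← hi', ← Ne, hρ.ne_zero_iff hV.ov] at hne0
    refine hcon i (hmin.of_val ?_ hne0)
    rw [hh]
    exact sum_mem fun j _ => Submodule.smul_mem _ _ (Submodule.subset_span ⟨j, rfl⟩)
  have h1 := card_le_frk hs hc0 Finset.univ h0
  have h2 : frk κ (Finset.univ.image c) ≤ m + 1 := by
    refine hFD.frk_res_le hV.ov _ ?_
    intro a ha
    obtain ⟨j, -, rfl⟩ := Finset.mem_image.1 (Finset.mem_coe.1 ha)
    obtain ⟨hj, hj'⟩ := hc j
    rw [← hj']
    exact res_mem_Res hV hρ (E.div_mem (hβ _) (hβ _)) hj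
  rw [Finset.card_univ, Fintype.card_fin] at h1
  omega

/-! ### A minor of the matrix of derivatives -/

theorem der_eq_zero_of_adjoin (D : Derivation k K K) {S : Set K} (hD : ∀ a ∈ S, D a = 0)
    (hS : IntermediateField.adjoin k S = ⊤) (a : K) : D a = 0 := by
  have h1 : ∀ a ∈ Algebra.adjoin k S, D a = 0 := by
    intro a ha
    induction ha using Algebra.adjoin_induction with
    | mem a ha => exact hD a ha
    | algebraMap c => exact D.map_algebraMap c
    | add a b _ _ ha hb => rw [map_add, ha, hb, add_zero]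
    | mul a b _ _ ha hb => rw [D.leibniz, ha, hb, smul_zero, smul_zero, add_zero]
  have h2 : a ∈ IntermediateField.adjoin k S := by
    rw [hS]
    trivial
  obtain ⟨r, hr, s, hs, rfl⟩ := IntermediateField.mem_adjoin_iff_div.1 h2
  by_cases hs0 : s = 0
  · rw [hs0, div_zero, map_zero]
  · rw [der_frac D hs0, h1 r hr, h1 s hs, mul_zero, mul_zero, sub_zero, zero_div]

theorem exists_minor_der {n : ℕ} {J : Type} [Fintype J] {z : Fin n → K}
    {D : Fin n → Derivation k K K} (hD : Dual z D) {ε : J → K}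
    (hgen : IntermediateField.adjoin k (Set.range ε) = ⊤) :
    ∃ b : Fin n → J, (Matrix.of fun i l => D i (ε (b l))).det ≠ 0 := by
  classical
  let M : Matrix (Fin n) J K := Matrix.of fun i j => D i (ε j)
  have h1 : LinearIndependent K M.row := by
    rw [Fintype.linearIndependent_iff]
    intro a ha
    let D' : Derivation k K K := ∑ i, a i • D i
    have h2 : ∀ y, D' y = ∑ i, a i * D i y := by
      intro y
      have h5 := congrFun (map_sum (Derivation.coeFnAddMonoidHom (R := k) (A := K) (M := K))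
        (fun i => a i • D i) Finset.univ) y
      rw [Finset.sum_apply] at h5
      exact h5
    have h3 : ∀ y, D' y = 0 := by
      refine der_eq_zero_of_adjoin D' ?_ hgen
      rintro _ ⟨j, rfl⟩
      rw [h2]
      have h4 := congrFun ha j
      rw [Finset.sum_apply] at h4
      exact h4
    intro i
    have h4 := h3 (z i)
    rw [h2] at h4
    simp only [hD.dual, mul_ite, mul_one, mul_zero] at h4
    rw [Finset.sum_ite_eq' Finset.univ i a, if_pos (Finset.mem_univ _)] at h4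
    exact h4
  have h2 : M.rank = n := by
    rw [h1.rank_matrix, Fintype.card_fin]
  have h3 : n ≤ M.transpose.rank := by rw [Matrix.rank_transpose, h2]
  obtain ⟨b, hb⟩ := Pool.GA.exists_rows' M.transpose h3
  refine ⟨b, ?_⟩
  have h4 : IsUnit (M.transpose.submatrix b id) :=
    Matrix.linearIndependent_rows_iff_isUnit.1 hb
  have h5 := (Matrix.isUnit_iff_isUnit_det _).1 h4
  have h6 : M.transpose.submatrix b id = (Matrix.of fun i l => D i (ε (b l))).transpose := rfl
  rw [h6, Matrix.det_transpose] at h5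
  exact h5.ne_zero

theorem adjoin_ratios {J : Type} {H : Submodule k K} {N : ℕ} {β : J → K}
    (hspan : Submodule.span k (Set.range β) = H ^ (N + 1)) (hB : Bir H) {b : K} (hb : b ≠ 0) :
    IntermediateField.adjoin k (Set.range fun j => β j / b) = ⊤ := by
  rw [eq_top_iff, ← hB, IntermediateField.adjoin_le_iff]
  have h1 : ∀ a ∈ H ^ (N + 1), a / b ∈
      IntermediateField.adjoin k (Set.range fun j => β j / b) := by
    intro a ha
    rw [← hspan] at ha
    induction ha using Submodule.span_induction with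
    | mem a ha =>
      obtain ⟨j, rfl⟩ := ha
      exact IntermediateField.subset_adjoin _ _ ⟨j, rfl⟩
    | zero => rw [zero_div]; exact zero_mem _
    | add a a' _ _ ha ha' => rw [add_div]; exact add_mem ha ha'
    | smul c a _ ha =>
      rw [smul_div_assoc]
      exact IntermediateField.smul_mem _ ha
  rintro _ ⟨g, hg, f, hf, rfl⟩
  by_cases hg0 : g = 0
  · rw [hg0, div_zero]
    exact zero_mem _
  have h2 : f / g = (f * g ^ N / b) / (g ^ (N + 1) / b) := by
    field_simp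
    ring
  rw [h2]
  refine div_mem (h1 _ ?_) (h1 _ (Submodule.pow_mem_pow H hg _))
  rw [pow_succ, mul_comm f]
  exact Submodule.mul_mem_mul (Submodule.pow_mem_pow H hg _) hf

theorem matrix_coe_det {S : Subalgebra k K} {n : ℕ} (M : Matrix (Fin n) (Fin n) S) :
    ((M.det : S) : K) = (Matrix.of fun i l => ((M i l : S) : K)).det := by
  have h1 := RingHom.map_det (S.val : S →+* K) M
  exact h1

theorem det_mem_E {n : ℕ} (M : Matrix (Fin n) (Fin n) K) (h : ∀ i l, M i l ∈ E) : M.det ∈ E := by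
  rw [Matrix.det_apply]
  refine sum_mem fun σ _ => ?_
  have h1 : ∏ i, M (σ i) i ∈ E := prod_mem fun i _ => h _ _
  rcases Int.units_eq_one_or (Equiv.Perm.sign σ) with h2 | h2
  · rw [h2, one_smul]; exact h1
  · rw [h2, Units.neg_smul, one_smul]; exact neg_mem h1

/-- **The points over `O`**: the local ring contains `E`, and the Jacobian determinant of the
coordinates with respect to suitable derivations of the local ring is a unit. -/
theorem out_aux [IsAlgClosed k] (hfg : (⊤ : IntermediateField k K).FG)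
    (htr : Algebra.trdeg k K = (m + 1 : ℕ)) {J : Type} [Fintype J] {x : Fin (m + 1) → K}
    (hFD : FD κ E x) {H : Submodule k K} (hH : IsModel H)
    (hbase : ∃ F : Set K, F.Finite ∧ F ⊆ E ∧ H = Submodule.span k F) (hB : Bir H) {β : J → K}
    (hβ : ∀ j, β j ∈ E) (hspan : Submodule.span k (Set.range β) = H ^ (m + 2))
    {s : Fin (m + 2) × J → k} {h : Fin (m + 2) → K} (hs : AlgebraicIndependent κ s)
    (hh : ∀ i, h i = ∑ j, s (i, j) • β j) (hl0 : h (Fin.last (m + 1)) ≠ 0) (hV : ZDim k V)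
    (hle : ∀ i, h i / h (Fin.last (m + 1)) ∈ V)
    (hlt : ∀ i, i ≠ Fin.last (m + 1) → V.valuation (h i / h (Fin.last (m + 1))) < 1) :
    (∀ e ∈ E, e ∈ NV V H) ∧ ∃ D : Fin (m + 1) → Derivation k K K,
      (∀ i, ∀ a ∈ NV V H, D i a ∈ NV V H) ∧
      V.valuation (jac D fun l => h l.castSucc / h (Fin.last (m + 1))) = 1 := by
  classical
  have hne : Submodule.span k (Set.range β) ≠ ⊥ := by
    rw [hspan]
    exact (hH.pow _).ne
  set ℓ := Fin.last (m + 1) with hℓ
  obtain ⟨j₀, ρ, c, hρ, hmin, hc0, hc, hh'⟩ := exists_point hV hne hh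
  obtain ⟨j₁, hj₁⟩ := exists_isMin_form hFD hV hβ hne hs hh
  have hβ0 : β j₀ ≠ 0 := hmin.ne
  have hv1 : V.valuation (h ℓ / β j₀) = 1 := by
    have h1 := Pool.Agent.TG.val_div_eq_one hmin hj₁
    have h2 : h j₁ / β j₀ = (h j₁ / h ℓ) * (h ℓ / β j₀) := by field_simp
    obtain ⟨hi, -⟩ := hh' ℓ
    rw [h2, map_mul] at h1
    have h3 := (V.valuation_le_one_iff _).2 (hle j₁)
    have h4 := (V.valuation_le_one_iff _).2 hi
    refine le_antisymm h4 ?_
    rw [← h1]
    exact (mul_le_mul_left h3 _).trans (one_mul _).le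
  have hv0 : ∀ i, i ≠ ℓ → V.valuation (h i / β j₀) < 1 := by
    intro i hi
    have h2 : h i / β j₀ = (h i / h ℓ) * (h ℓ / β j₀) := by field_simp
    rw [h2, map_mul, hv1, mul_one]
    exact hlt i hi
  have h0 : ∀ i ∈ Finset.univ.erase ℓ, ∑ j, s (i, j) * c j = 0 := by
    intro i hi
    obtain ⟨hi1, hi2⟩ := hh' i
    rw [← hi2, hρ.eq_zero_iff hV.ov]
    exact hv0 i (Finset.ne_of_mem_erase hi)
  have hcard : (Finset.univ.erase ℓ).card = m + 1 := by
    rw [Finset.card_erase_of_mem (Finset.mem_univ _), Finset.card_univ, Fintype.card_fin]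
    rfl
  have hfrk : m + 1 ≤ frk κ (Finset.univ.image c) := by
    rw [← hcard]
    exact card_le_frk hs hc0 _ h0
  obtain ⟨ε, hε⟩ : ∃ ε : J → K, ∀ j, ε j = β j / β j₀ := ⟨_, fun _ => rfl⟩
  have hεE : ∀ j, ε j ∈ E := fun j => by rw [hε]; exact E.div_mem (hβ _) (hβ _)
  have hεV : ∀ j, ε j ∈ V := fun j => by
    rw [hε]
    exact (hc j).choose
  have hεr : ∀ j, ρ ⟨ε j, hεV j⟩ = c j := fun j => by
    obtain ⟨h1, h2⟩ := hc j
    rw [← h2]
    exact congrArg ρ (Subtype.ext (hε j))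
  have hεc : ∀ j, V.valuation (ε j - algebraMap k K (c j)) < 1 := fun j => by
    have h1 := hρ ⟨ε j, hεV j⟩
    rw [hεr] at h1
    exact h1
  obtain ⟨hE, hint⟩ := generic_centre hFD hV.ov hεE hεc hfrk
  have hRV : RV V (H ^ (m + 2)) = RV V H := Pool.Agent.TG.RV_pow hV.ov hH (m + 1)
  have hεR : ∀ j, ε j ∈ RV V H := fun j => by
    rw [← hRV, ← hspan, hε]
    exact Pool.Agent.TG.div_mem_RV hmin (Submodule.subset_span ⟨j, rfl⟩)
  have hES : ∀ e ∈ E, e ∈ NV V H := fun e he =>
    le_locV _ (hint (RV V H) hεR (fun a ha h1 => Pool.Agent.TG.RV_inv ha h1) e he)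
  refine ⟨hES, ?_⟩
  have hess : Algebra.EssFiniteType k K := IntermediateField.fg_top_iff.1 hfg
  obtain ⟨z, θ, Φ, hS⟩ := exists_sepData hFD htr
  obtain ⟨D, hD⟩ := exists_Dual (m + 1) htr z hS.sep
  have hDE : ∀ i, ∀ e ∈ E, D i e ∈ E := fun i => hS.der_mem (D i) fun j => by
    rw [hD.dual]
    split_ifs
    · exact E.one_mem
    · exact E.zero_mem
  have hRle : RV V H ≤ locV V (Algebra.adjoin k (E : Set K)) := by
    obtain ⟨F, hF, hFE, rfl⟩ := hbase
    have h1 : ∃ a ∈ hF.toFinset, a ≠ 0 := by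
      by_contra hcon
      push Not at hcon
      exact hH.ne (Submodule.span_eq_bot.2 fun a ha => hcon a (hF.mem_toFinset.2 ha))
    obtain ⟨f, hf, hfm⟩ := Pool.Agent.TG.exists_isMin_mem hV.ov _ h1
    rw [hF.coe_toFinset] at hfm
    rw [Pool.Agent.TG.RV_le_iff (fun a ha h1 => locV_inv ha h1) hfm]
    intro g hg
    refine le_locV _ ?_
    have hfE : f ∈ E := hFE (hF.mem_toFinset.1 hf)
    induction hg using Submodule.span_induction with
    | mem a ha => exact Algebra.subset_adjoin (E.div_mem (hFE ha) hfE)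
    | zero => rw [zero_div]; exact zero_mem _
    | add a a' _ _ ha ha' => rw [add_div]; exact add_mem ha ha'
    | smul c a _ ha => rw [smul_div_assoc]; exact Subalgebra.smul_mem _ ha c
  have hNV : NV V H = locV V (Algebra.adjoin k (E : Set K)) :=
    le_antisymm (hS.locV_ncl_le hV.ov hE hRle)
      (locV_le (Algebra.adjoin_le hES) fun a ha h1 => Pool.Agent.TG.NV_inv ha h1)
  have hDS : ∀ i, ∀ a ∈ NV V H, D i a ∈ NV V H := by
    intro i a ha
    rw [hNV] at ha ⊢
    exact der_locV (D i) (hDE i) a ha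
  refine ⟨D, hDS, ?_⟩
  -- the minor
  have hgen : IntermediateField.adjoin k (Set.range ε) = ⊤ := by
    rw [show ε = fun j => β j / β j₀ from funext hε]
    exact adjoin_ratios (N := m + 1) hspan hB hβ0
  obtain ⟨b, hb⟩ := exists_minor_der hD hgen
  have hEV : ∀ a ∈ E, a ∈ V := fun a ha => by
    by_cases h0 : a = 0
    · rw [h0]
      exact V.zero_mem
    · rw [← V.valuation_le_one_iff, hE a ha h0]
  obtain ⟨δ, hδ⟩ : ∃ δ : Fin (m + 1) → J → k, ∀ i j,
      δ i j = ρ ⟨D i (ε j), hEV _ (hDE i _ (hεE j))⟩ := ⟨_, fun _ _ => rfl⟩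
  -- the field of the residues
  obtain ⟨T, hT⟩ : ∃ T : Finset k, T = Finset.univ.image c ∪
      Finset.univ.image fun q : Fin (m + 1) × J => δ q.1 q.2 := ⟨_, rfl⟩
  have hcT : Finset.univ.image c ⊆ T := by
    rw [hT]
    exact Finset.subset_union_left
  have hδT : ∀ i j, δ i j ∈ T := fun i j => by
    rw [hT]
    exact Finset.mem_union_right _ (Finset.mem_image.2 ⟨(i, j), Finset.mem_univ _, rfl⟩)
  have hTn : frk κ T ≤ (Finset.univ.erase ℓ).card := by
    rw [hcard]
    refine hFD.frk_res_le hV.ov _ ?_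
    intro a ha
    rw [hT] at ha
    rcases Finset.mem_union.1 (Finset.mem_coe.1 ha) with ha | ha
    · obtain ⟨j, -, rfl⟩ := Finset.mem_image.1 ha
      rw [← hεr]
      exact res_mem_Res hV hρ (hεE j) _
    · obtain ⟨q, -, rfl⟩ := Finset.mem_image.1 ha
      rw [hδ]
      exact res_mem_Res hV hρ (hDE _ _ (hεE _)) _
  have hrest := indep_rest hs hc0 (Finset.univ.erase ℓ) h0 T hcT hTn
  obtain ⟨t, ht⟩ : ∃ t : Fin (m + 1) → J → k, ∀ l j, t l j = s (l.castSucc, j) :=
    ⟨_, fun _ _ => rfl⟩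
  have hti : AlgebraicIndependent (IntermediateField.adjoin κ (T : Set k))
      fun q : Fin (m + 1) × {b : J // b ≠ j₀} => t q.1 q.2 := by
    have h1 := hrest.comp (fun q : Fin (m + 1) × {b : J // b ≠ j₀} =>
      (⟨(q.1.castSucc, (q.2 : J)), fun hq => q.2.2 hq.2⟩ :
        {q : Fin (m + 2) × J // ¬ (q.1 ∈ Finset.univ.erase ℓ ∧ q.2 = j₀)})) ?_
    · convert h1 using 2 with q
      exact ht _ _
    · intro q q' hq
      have h2 := congrArg Subtype.val hq
      have h3 := congrArg Prod.fst h2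
      have h4 := congrArg Prod.snd h2
      exact Prod.ext (Fin.castSucc_injective _ h3) (Subtype.ext h4)
  have hmemF : ∀ i j, δ i j ∈ IntermediateField.adjoin κ (T : Set k) := fun i j =>
    IntermediateField.subset_adjoin _ _ (Finset.mem_coe.2 (hδT i j))
  have hδ0 : ∀ i, (⟨δ i j₀, hmemF i j₀⟩ : IntermediateField.adjoin κ (T : Set k)) = 0 := by
    intro i
    apply Subtype.ext
    change δ i j₀ = 0
    rw [hδ]
    have h1 : D i (ε j₀) = 0 := by rw [hε, div_self hβ0, Derivation.map_one_eq_zero]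
    have h2 : (⟨D i (ε j₀), hEV _ (hDE i _ (hεE j₀))⟩ : valg hV.ov) = 0 := Subtype.ext h1
    rw [h2, map_zero]
  have hdetF : (Matrix.of fun i l => (⟨δ i (b l), hmemF i (b l)⟩ :
      IntermediateField.adjoin κ (T : Set k))).det ≠ 0 := by
    intro h1
    have h2 := congrArg (algebraMap (IntermediateField.adjoin κ (T : Set k)) k) h1
    rw [map_zero, RingHom.map_det] at h2
    have h3 : V.valuation (Matrix.of fun i l => D i (ε (b l))).det = 1 :=
      hE _ (det_mem_E _ fun i l => hDE i _ (hεE _)) hb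
    have h4 := matrix_coe_det (S := valg hV.ov)
      (Matrix.of fun i l => ⟨D i (ε (b l)), hEV _ (hDE i _ (hεE (b l)))⟩)
    have h5 : V.valuation ((Matrix.of fun i l => (⟨D i (ε (b l)),
        hEV _ (hDE i _ (hεE (b l)))⟩ : valg hV.ov)).det : K) = 1 := by
      rw [h4]
      exact h3
    rw [← hρ.ne_zero_iff hV.ov] at h5
    apply h5
    rw [AlgHom.map_det, ← h2]
    congr 1
    ext i l
    exact (hδ i (b l)).symm
  have hdet := det_ne hti (δ := fun i j => ⟨δ i j, hmemF i j⟩) hδ0 b hdetF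
  -- the coordinates
  have hHN : ∀ i, h i ∈ H ^ (m + 2) := fun i => by
    rw [← hspan, hh]
    exact sum_mem fun j _ => Submodule.smul_mem _ _ (Submodule.subset_span ⟨j, rfl⟩)
  have hlmin : IsMin V (H ^ (m + 2)) (h ℓ) := by
    rw [hspan] at hmin
    exact hmin.of_val (hHN _) hv1
  have hySub : ∀ i, h i / h ℓ ∈ NV V H := fun i => by
    have h1 := Pool.Agent.TG.div_mem_RV hlmin (hHN i)
    rw [hRV] at h1
    exact Pool.Agent.TG.RV_le_NV h1
  have hNVV : ∀ a ∈ NV V H, a ∈ V := Pool.Agent.TG.NV_le hV.ov hH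
  have hDy : ∀ i l, D i (h l / h ℓ) ∈ V := fun i l => hNVV _ (hDS i _ (hySub l))
  have hg : ∀ l, h l / β j₀ = ∑ j, s (l, j) • ε j := by
    intro l
    rw [hh, Finset.sum_div]
    refine Finset.sum_congr rfl fun j _ => ?_
    rw [hε, smul_div_assoc]
  have hDg : ∀ i l, D i (h l / β j₀) = ∑ j, s (l, j) • D i (ε j) := by
    intro i l
    rw [hg, map_sum]
    refine Finset.sum_congr rfl fun j _ => ?_
    rw [(D i).map_smul]
  have hDgV : ∀ i l, D i (h l / β j₀) ∈ V := fun i l => by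
    rw [hDg]
    refine sum_mem fun j _ => ?_
    rw [Algebra.smul_def]
    exact V.mul_mem _ _ (hV.ov _) (hEV _ (hDE i _ (hεE j)))
  have hDgρ : ∀ i l, ρ ⟨D i (h l / β j₀), hDgV i l⟩ = ∑ j, s (l, j) * δ i j := by
    intro i l
    have h4 : (⟨D i (h l / β j₀), hDgV i l⟩ : valg hV.ov) =
        ∑ j, s (l, j) • (⟨D i (ε j), hEV _ (hDE i _ (hεE j))⟩ : valg hV.ov) := by
      apply Subtype.ext
      rw [AddSubmonoidClass.coe_finsetSum]
      exact hDg i l
    rw [h4, map_sum]
    refine Finset.sum_congr rfl fun j _ => ?_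
    rw [map_smul, smul_eq_mul, hδ]
  have hgV : ∀ l, h l / β j₀ ∈ V := fun l => (hh' l).choose
  obtain ⟨γ, hγ⟩ : ∃ γ, γ = ρ ⟨h ℓ / β j₀, hgV ℓ⟩ := ⟨_, rfl⟩
  have hrel : ∀ i (l : Fin (m + 1)), γ * ρ ⟨D i (h l.castSucc / h ℓ), hDy i l.castSucc⟩ =
      ∑ j, s (l.castSucc, j) * δ i j := by
    intro i l
    have hlne : l.castSucc ≠ ℓ := (Fin.castSucc_lt_last l).ne
    have h1 : h l.castSucc / β j₀ = (h l.castSucc / h ℓ) * (h ℓ / β j₀) := by field_simp
    have h2 : D i (h l.castSucc / β j₀) = (h l.castSucc / h ℓ) * D i (h ℓ / β j₀) +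
        (h ℓ / β j₀) * D i (h l.castSucc / h ℓ) := by
      rw [h1, (D i).leibniz, smul_eq_mul, smul_eq_mul]
    have h3 : (⟨D i (h l.castSucc / β j₀), hDgV i l.castSucc⟩ : valg hV.ov) =
        ⟨h l.castSucc / h ℓ, hle _⟩ * ⟨D i (h ℓ / β j₀), hDgV i ℓ⟩ +
          ⟨h ℓ / β j₀, hgV ℓ⟩ * ⟨D i (h l.castSucc / h ℓ), hDy i l.castSucc⟩ :=
      Subtype.ext h2
    have h4 : ρ ⟨h l.castSucc / h ℓ, hle _⟩ = 0 := by
      rw [hρ.eq_zero_iff hV.ov]
      exact hlt _ hlne
    rw [← hDgρ, h3, map_add, map_mul, map_mul, h4, zero_mul, zero_add, hγ]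
  have hfin : (Matrix.of fun i l => ρ ⟨D i (h (Fin.castSucc l) / h ℓ),
      hDy i (Fin.castSucc l)⟩).det ≠ 0 := by
    intro h1
    apply hdet
    have h2 : (Matrix.of fun (i l : Fin (m + 1)) => ∑ j,
        algebraMap (IntermediateField.adjoin κ (T : Set k)) k ⟨δ i j, hmemF i j⟩ * t l j) =
        γ • (Matrix.of fun i l => ρ ⟨D i (h (Fin.castSucc l) / h ℓ),
          hDy i (Fin.castSucc l)⟩) := by
      ext i l
      rw [Matrix.smul_apply, Matrix.of_apply, Matrix.of_apply, smul_eq_mul, hrel]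
      refine Finset.sum_congr rfl fun j _ => ?_
      rw [ht, mul_comm]
      rfl
    rw [h2, Matrix.det_smul, h1, mul_zero]
  have h6 := matrix_coe_det (S := valg hV.ov)
    (Matrix.of fun i l => ⟨D i (h (Fin.castSucc l) / h ℓ), hDy i (Fin.castSucc l)⟩)
  have h7 : jac D (fun l => h l.castSucc / h ℓ) = ((Matrix.of fun i l =>
      (⟨D i (h (Fin.castSucc l) / h ℓ), hDy i (Fin.castSucc l)⟩ : valg hV.ov)).det : K) := by
    rw [h6]
    rfl
  rw [h7, ← hρ.ne_zero_iff hV.ov, AlgHom.map_det]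
  exact hfin

/-- **ROW O.** -/
theorem rowO : Pool.Agent.TGTop.RowO k K := by
  intro hk hfg m htr κ E x hFD H Tb J _ β s h hG hB hTb
  have hne : Submodule.span k (Set.range β) ≠ ⊥ := by
    rw [hG.span]
    exact (hG.model.pow _).ne
  refine ⟨fun V hV => ?_, fun V hV hle hlt res hres y hy v hv => ?_⟩
  · have h1 := exists_isMin_form hFD hV hG.mem hne hG.ind hG.eq
    rwa [hG.span] at h1
  have hl0 : h (Fin.last (m + 1)) ≠ 0 := by
    intro h0
    rw [hG.eq] at h0
    have h1 := Fintype.linearIndependent_iff.1 hG.lin _ h0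
    by_cases hJ : Nonempty J
    · obtain ⟨j⟩ := hJ
      exact hG.ind.ne_zero (Fin.last (m + 1), j) (h1 j)
    · refine hne (Submodule.span_eq_bot.2 ?_)
      rintro _ ⟨j, rfl⟩
      exact absurd ⟨j⟩ hJ
  obtain ⟨hES, D, hDS, hjac⟩ := out_aux hfg htr hFD hG.model hG.base hB hG.mem hG.span hG.ind
    hG.eq hl0 hV hle hlt
  constructor
  · have hj : jac D (fun i => (y i : K)) =
        jac D fun l => h l.castSucc / h (Fin.last (m + 1)) := by
      unfold jac
      congr 1
      ext i l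
      obtain ⟨c, hc⟩ := (hy l).2
      rw [Matrix.of_apply, Matrix.of_apply]
      change D i (y l : K) = D i (h l.castSucc / h (Fin.last (m + 1)))
      rw [hc, map_sub, Derivation.map_algebraMap, sub_zero, Fin.succAbove_last]
    have hjm : jac D (fun i => (y i : K)) ∈ NV V H :=
      jac_mem (O := (NV V H).toSubring) hDS fun j => (y j).2
    rw [← hj] at hjac
    have hjv : v.valuation (jac D (fun i => (y i : K))) = 1 := by
      have h1 := hv.le _ hjm
      have h2 := hv.le _ (Pool.Agent.TG.NV_inv hjm hjac)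
      rw [← v.valuation_le_one_iff] at h1 h2
      rw [map_inv₀] at h2
      have h0 : v.valuation (jac D (fun i => (y i : K))) ≠ 0 :=
        (Valuation.ne_zero_iff _).2 (ne_of_val hjac)
      exact le_antisymm h1 ((inv_le_one₀ (zero_lt_iff.2 h0)).1 h2)
    have h1 := rram_le (isOrd_ordV hv.disc) (fun j => hv.le _ (y j).2)
      (fun i => pres_isDiv hv (D i) (hDS i)) (ne_of_val hjv)
    rw [(TGh4.ordV_eq_zero_iff hv.disc (ne_of_val hjv)).2 hjv] at h1
    have h2 : ramV v y = 0 := by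
      unfold ramV
      omega
    exact h2
  · intro ht
    obtain ⟨e, he, hev⟩ := hTb v ht
    exact hev (hv.le _ (hES e he))

end Pool.Agent.TGJ70
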