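import Pool.Agent.Lib.TG_h35.J7b
import Pool.Agent.Lib.GA.Spec

/-!
# TANK G, block C, row (O), part 2: forms with algebraically independent coefficients at a point
-/

set_option autoImplicit false

namespace Pool.Agent.TGJ70

open Pool.Agent.TGFOD
open Pool.Agent.TGJ

universe u

section Count

variable {k : Type u} [Field k] {κ : Subfield k} {I J : Type} [Fintype I] [Fintype J]
  [DecidableEq I] [DecidableEq J] {s : I × J → k} {c : J → k} {j₀ : J}

theorem card_filter (I₀ : Finset I) (j₀ : J) :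
    (Finset.univ.filter fun q : I × J => ¬ (q.1 ∈ I₀ ∧ q.2 = j₀)).card + I₀.card =
      Fintype.card (I × J) := by
  have h1 : (Finset.univ.filter fun q : I × J => q.1 ∈ I₀ ∧ q.2 = j₀) = I₀ ×ˢ {j₀} := by
    ext q
    rw [Finset.mem_filter, Finset.mem_product, Finset.mem_singleton]
    exact ⟨fun h => h.2, fun h => ⟨Finset.mem_univ _, h⟩⟩
  have h2 := Finset.card_filter_add_card_filter_not (s := (Finset.univ : Finset (I × J)))
    (fun q : I × J => q.1 ∈ I₀ ∧ q.2 = j₀)
  rw [h1, Finset.card_product, Finset.card_singleton, mul_one, Finset.card_univ] at h2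
  omega

open scoped Classical in
/-- If the forms `∑ s (i, j) X_j`, `i ∈ I₀`, vanish at the point `c`, `c j₀ = 1`, the coefficients
`s (i, j₀)`, `i ∈ I₀`, are redundant. -/
theorem frk_count (hs : AlgebraicIndependent κ s) (hj₀ : c j₀ = 1) (I₀ : Finset I)
    (h0 : ∀ i ∈ I₀, ∑ j, s (i, j) * c j = 0) :
    Fintype.card (I × J) ≤ frk κ (Finset.univ.image c ∪
      (Finset.univ.filter fun q : I × J => ¬ (q.1 ∈ I₀ ∧ q.2 = j₀)).image s) := by
  set C := Finset.univ.image c with hC
  set T := (Finset.univ.filter fun q : I × J => ¬ (q.1 ∈ I₀ ∧ q.2 = j₀)).image s with hT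
  have h1 : frk κ ((C ∪ T) ∪ Finset.univ.image s) = frk κ (C ∪ T) := by
    rw [frk_union_eq_iff]
    intro a ha
    obtain ⟨⟨i, j⟩, -, rfl⟩ := Finset.mem_image.1 ha
    have hmem : ∀ y ∈ C ∪ T, y ∈ IntermediateField.adjoin κ ((C ∪ T : Finset k) : Set k) :=
      fun y hy => IntermediateField.subset_adjoin _ _ (Finset.mem_coe.2 hy)
    have hTm : ∀ q : I × J, ¬ (q.1 ∈ I₀ ∧ q.2 = j₀) →
        s q ∈ IntermediateField.adjoin κ ((C ∪ T : Finset k) : Set k) := fun q hq =>
      hmem _ (Finset.mem_union_right _ (Finset.mem_image.2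
        ⟨q, Finset.mem_filter.2 ⟨Finset.mem_univ _, hq⟩, rfl⟩))
    have hCm : ∀ j, c j ∈ IntermediateField.adjoin κ ((C ∪ T : Finset k) : Set k) := fun j =>
      hmem _ (Finset.mem_union_left _ (Finset.mem_image.2 ⟨j, Finset.mem_univ _, rfl⟩))
    have h2 : s (i, j) ∈ IntermediateField.adjoin κ ((C ∪ T : Finset k) : Set k) := by
      by_cases hq : i ∈ I₀ ∧ j = j₀
      · obtain ⟨hi, rfl⟩ := hq
        have h3 := h0 i hi
        rw [← Finset.add_sum_erase _ _ (Finset.mem_univ j), hj₀, mul_one] at h3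
        rw [eq_neg_of_add_eq_zero_left h3]
        refine neg_mem (sum_mem fun l hl => mul_mem (hTm (i, l) fun h => ?_) (hCm l))
        exact (Finset.ne_of_mem_erase hl) h.2
      · exact hTm (i, j) hq
    exact isAlgebraic_algebraMap (A := k)
      (⟨s (i, j), h2⟩ : IntermediateField.adjoin κ ((C ∪ T : Finset k) : Set k))
  rw [← h1, ← (algebraicIndependent_iff_frk κ s).1 hs]
  exact frk_mono κ Finset.subset_union_right

open scoped Classical in
/-- The transcendence degree of the point is at least the number of forms vanishing at it. -/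
theorem card_le_frk (hs : AlgebraicIndependent κ s) (hj₀ : c j₀ = 1) (I₀ : Finset I)
    (h0 : ∀ i ∈ I₀, ∑ j, s (i, j) * c j = 0) : I₀.card ≤ frk κ (Finset.univ.image c) := by
  have h1 := frk_count hs hj₀ I₀ h0
  have h2 := frk_union_le_add_card κ (Finset.univ.image c)
    ((Finset.univ.filter fun q : I × J => ¬ (q.1 ∈ I₀ ∧ q.2 = j₀)).image s)
  have h3 : ((Finset.univ.filter fun q : I × J => ¬ (q.1 ∈ I₀ ∧ q.2 = j₀)).image s).card ≤
      (Finset.univ.filter fun q : I × J => ¬ (q.1 ∈ I₀ ∧ q.2 = j₀)).card := Finset.card_image_le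
  have h4 := card_filter I₀ j₀
  omega

open scoped Classical in
/-- The other coefficients are algebraically independent over every field of transcendence degree
at most the number of forms, which contains the point. -/
theorem indep_rest (hs : AlgebraicIndependent κ s) (hj₀ : c j₀ = 1) (I₀ : Finset I)
    (h0 : ∀ i ∈ I₀, ∑ j, s (i, j) * c j = 0) (D : Finset k) (hCD : Finset.univ.image c ⊆ D)
    (hD : frk κ D ≤ I₀.card) :
    AlgebraicIndependent (IntermediateField.adjoin κ (D : Set k))
      fun q : {q : I × J // ¬ (q.1 ∈ I₀ ∧ q.2 = j₀)} => s q := by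
  rw [algebraicIndependent_adjoin_iff]
  have h4 := card_filter I₀ j₀
  have h5 : Fintype.card {q : I × J // ¬ (q.1 ∈ I₀ ∧ q.2 = j₀)} =
      (Finset.univ.filter fun q : I × J => ¬ (q.1 ∈ I₀ ∧ q.2 = j₀)).card :=
    Fintype.card_subtype _
  refine le_antisymm ?_ ?_
  · refine (frk_union_le_add_card κ _ _).trans ?_
    have : (Finset.univ.image fun q : {q : I × J // ¬ (q.1 ∈ I₀ ∧ q.2 = j₀)} => s q).card ≤
        Fintype.card {q : I × J // ¬ (q.1 ∈ I₀ ∧ q.2 = j₀)} := Finset.card_image_le
    omega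
  · have h1 := frk_count hs hj₀ I₀ h0
    have h2 : frk κ (Finset.univ.image c ∪
        (Finset.univ.filter fun q : I × J => ¬ (q.1 ∈ I₀ ∧ q.2 = j₀)).image s) ≤
        frk κ (D ∪ Finset.univ.image fun q : {q : I × J // ¬ (q.1 ∈ I₀ ∧ q.2 = j₀)} => s q) := by
      apply frk_mono
      intro y hy
      rcases Finset.mem_union.1 hy with hy | hy
      · exact Finset.mem_union_left _ (hCD hy)
      · obtain ⟨q, hq, rfl⟩ := Finset.mem_image.1 hy
        exact Finset.mem_union_right _ (Finset.mem_image.2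
          ⟨⟨q, (Finset.mem_filter.1 hq).2⟩, Finset.mem_univ _, rfl⟩)
    omega

end Count

section Det

/-- A determinant of forms with algebraically independent coefficients. -/
theorem det_ne {F k : Type u} [Field F] [Field k] [Algebra F k] {n : ℕ} {J : Type*} [Fintype J]
    [DecidableEq J] {j₀ : J} {t : Fin n → J → k}
    (ht : AlgebraicIndependent F fun q : Fin n × {b : J // b ≠ j₀} => t q.1 q.2)
    {δ : Fin n → J → F} (hδ : ∀ i, δ i j₀ = 0) (b : Fin n → J)
    (hdet : (Matrix.of fun i l => δ i (b l)).det ≠ 0) :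
    (Matrix.of fun i l => ∑ j, algebraMap F k (δ i j) * t l j).det ≠ 0 := by
  classical
  have hb : ∀ l, b l ≠ j₀ := by
    intro l hl
    refine hdet (Matrix.det_eq_zero_of_column_eq_zero l fun i => ?_)
    rw [Matrix.of_apply, hl]
    exact hδ i
  obtain ⟨M, hMe⟩ : ∃ M : Matrix (Fin n) (Fin n) (MvPolynomial (Fin n × {b : J // b ≠ j₀}) F),
      ∀ i l, M i l = ∑ j : {b : J // b ≠ j₀},
        MvPolynomial.C (δ i (j : J)) * MvPolynomial.X (l, j) := ⟨fun i l => _, fun i l => rfl⟩
  have hsum : ∀ (A : Type u) [CommRing A] (φ : F →+* A) (τ : Fin n → J → A) (i l : Fin n),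
      ∑ j, φ (δ i j) * τ l j = ∑ j : {b : J // b ≠ j₀}, φ (δ i j) * τ l j := by
    intro A _ φ τ i l
    rw [← Finset.add_sum_erase _ _ (Finset.mem_univ j₀), hδ, map_zero, zero_mul, zero_add]
    rw [← Finset.sum_subtype (Finset.univ.erase j₀) (fun x => by simp)
      (fun j => φ (δ i j) * τ l j)]
  have hev : ∀ (A : Type u) [CommRing A] (_ : Algebra F A) (τ : Fin n → J → A),
      MvPolynomial.aeval (fun q : Fin n × {b : J // b ≠ j₀} => τ q.1 q.2) M.det =
        (Matrix.of fun i l => ∑ j, algebraMap F A (δ i j) * τ l j).det := by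
    intro A _ _ τ
    rw [AlgHom.map_det]
    congr 1
    ext i l
    rw [AlgHom.mapMatrix_apply, Matrix.map_apply, hMe, Matrix.of_apply, map_sum, hsum]
    refine Finset.sum_congr rfl fun j _ => ?_
    rw [map_mul, MvPolynomial.aeval_X, MvPolynomial.algHom_C]
  have hM : M.det ≠ 0 := by
    intro h0
    have h1 := hev F (Algebra.id F) fun l j => if j = b l then 1 else 0
    rw [h0, map_zero] at h1
    refine hdet ?_
    rw [h1]
    congr 1
    ext i l
    simp
  rw [← hev k _ t]
  intro h0
  exact hM ((injective_iff_map_eq_zero _).1 (algebraicIndependent_iff_injective_aeval.1 ht) _ h0)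

end Det

end Pool.Agent.TGJ70
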