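import Pool.Agent.Lib.TGJ_h70.Triv
import Pool.Agent.Lib.TGJ_h11.Ex
import Pool.Agent.Lib.TG_h53.Trace

/-!
# TANK G, block C, row (O), part 3: separating bases of the field of definition; the local ring of
a point with generic centre
-/

set_option autoImplicit false

open Polynomial

namespace Pool.Agent.TGJ70

open Pool.Agent.TG (ncl Ov ZDim IsMin IsModel NV RV)
open Pool.Agent.TGFOD
open Pool.Agent.TGJ
open Pool.Agent.LU2 (locV le_locV locV_mono locV_le locV_inv locV_mem locV_locV)

universe u

variable {k K : Type u} [Field k] [Field K] [Algebra k K] {κ : Subfield k}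
  {E : IntermediateField κ K} {n : ℕ} {x : Fin n → K} {V : ValuationSubring K}

/-- The derivation of `P(a)`. -/
theorem der_eval (δ : Derivation k K K) (P : K[X]) (a : K) :
    δ (P.eval a) = (∑ i ∈ P.support, a ^ i * δ (P.coeff i)) +
      (derivative P).eval a * δ a := by
  conv_lhs => rw [eval_eq_sum, Polynomial.sum]
  rw [map_sum, derivative_eval, Polynomial.sum, Finset.sum_mul, ← Finset.sum_add_distrib]
  refine Finset.sum_congr rfl fun i _ => ?_
  rw [Derivation.leibniz, Derivation.leibniz_pow]
  simp only [smul_eq_mul, nsmul_eq_mul]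
  ring

/-- Separating data for a field of definition: a basis `y`, a primitive element `θ` with equation
`Φ`. -/
structure SepData (k : Type u) {K : Type u} [Field k] [Field K] [Algebra k K] {κ : Subfield k}
    (E : IntermediateField κ K) {n : ℕ} (y : Fin n → K) (θ : K) (Φ : K[X]) : Prop where
  y_mem : ∀ i, y i ∈ E
  ind : AlgebraicIndependent k y
  sep : Algebra.IsSeparable (IntermediateField.adjoin k (Set.range y)) K
  θ_mem : θ ∈ E
  monic : Φ.Monic
  coeff : ∀ i, ∃ r ∈ Algebra.adjoin κ (Set.range y), ∃ s ∈ Algebra.adjoin κ (Set.range y),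
    s ≠ 0 ∧ Φ.coeff i = r / s
  root : Φ.eval θ = 0
  simple : Φ.derivative.eval θ ≠ 0
  /-- `E = κ(y)[θ]` -/
  gen : ∀ e ∈ E, ∃ P : K[X], (∀ i, ∃ r ∈ Algebra.adjoin κ (Set.range y),
    ∃ s ∈ Algebra.adjoin κ (Set.range y), s ≠ 0 ∧ P.coeff i = r / s) ∧ e = P.eval θ
  /-- every element of `E` is a simple root -/
  eq : ∀ e ∈ E, ∃ P : K[X], (∀ i, ∃ r ∈ Algebra.adjoin κ (Set.range y),
    ∃ s ∈ Algebra.adjoin κ (Set.range y), s ≠ 0 ∧ P.coeff i = r / s) ∧ P.eval e = 0 ∧
      P.derivative.eval e ≠ 0
  all : IntermediateField.adjoin k (E : Set K) = ⊤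

theorem exists_sepData (hFD : FD κ E x) (htr : Algebra.trdeg k K = n) :
    ∃ (y : Fin n → K) (θ : K) (Φ : K[X]), SepData k E y θ Φ := by
  classical
  have h1 : IsAlgClosed κ := hFD.closed
  have h2 : Algebra.EssFiniteType κ E := IntermediateField.essFiniteType_iff.2 hFD.fg
  obtain ⟨s, hs, hsep⟩ := exists_isTranscendenceBasis_and_isSeparable_of_perfectField κ E
  set F₀ := IntermediateField.adjoin κ (s : Set E) with hF₀
  -- elements of `F₀`
  let z : Fin s.card → K := fun i => ((s.equivFin.symm i : s) : E)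
  have hzE : ∀ i, z i ∈ E := fun i => ((s.equivFin.symm i : s) : E).2
  have hrange : Set.range z = (fun e : E => (e : K)) '' (s : Set E) := by
    ext a
    constructor
    · rintro ⟨i, rfl⟩
      exact ⟨_, (s.equivFin.symm i).2, rfl⟩
    · rintro ⟨e, he, rfl⟩
      exact ⟨s.equivFin ⟨e, he⟩, by simp [z]⟩
  have hadj : ∀ r ∈ Algebra.adjoin κ (s : Set E), (r : K) ∈ Algebra.adjoin κ (Set.range z) := by
    intro r hr
    have h3 : (r : K) ∈ (Algebra.adjoin κ (s : Set E)).map E.val := ⟨r, hr, rfl⟩
    rw [AlgHom.map_adjoin] at h3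
    rw [hrange]
    exact h3
  have hF : ∀ f ∈ F₀, ∃ r ∈ Algebra.adjoin κ (Set.range z), ∃ t ∈ Algebra.adjoin κ (Set.range z),
      t ≠ 0 ∧ (f : K) = r / t := by
    intro f hf
    by_cases hf0 : f = 0
    · refine ⟨0, Subalgebra.zero_mem _, 1, Subalgebra.one_mem _, one_ne_zero, ?_⟩
      rw [hf0, zero_div]
      rfl
    obtain ⟨r, hr, t, ht, hrt⟩ := IntermediateField.mem_adjoin_iff_div.1 hf
    refine ⟨r, hadj r hr, t, hadj t ht, ?_, ?_⟩
    · intro h0
      apply hf0
      rw [hrt, show t = 0 from Subtype.ext h0, div_zero]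
    · rw [hrt]
      rfl
  -- the field `k(z)`
  set L := IntermediateField.adjoin k (Set.range z) with hL
  have hκk : ∀ r ∈ Algebra.adjoin κ (Set.range z), r ∈ Algebra.adjoin k (Set.range z) := by
    intro r hr
    induction hr using Algebra.adjoin_induction with
    | mem y hy => exact Algebra.subset_adjoin hy
    | algebraMap c => exact (Algebra.adjoin k (Set.range z)).algebraMap_mem (c : k)
    | add a b _ _ ha hb => exact add_mem ha hb
    | mul a b _ _ ha hb => exact mul_mem ha hb
  have hFL : ∀ f : F₀, ((f : E) : K) ∈ L := by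
    intro f
    obtain ⟨r, hr, t, ht, -, hft⟩ := hF f f.2
    rw [hft]
    exact L.div_mem (IntermediateField.algebra_adjoin_le_adjoin _ _ (hκk r hr))
      (IntermediateField.algebra_adjoin_le_adjoin _ _ (hκk t ht))
  let φ : F₀ →+* L :=
    { toFun := fun f => ⟨((f : E) : K), hFL f⟩
      map_one' := rfl
      map_mul' := fun _ _ => rfl
      map_zero' := rfl
      map_add' := fun _ _ => rfl }
  have hEsep : ∀ e ∈ E, e ∈ separableClosure L K := by
    intro e he
    rw [mem_separableClosure_iff]
    have h3 : (minpoly F₀ (⟨e, he⟩ : E)).Separable :=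
      Algebra.IsSeparable.isSeparable F₀ (⟨e, he⟩ : E)
    have h4 : ((minpoly F₀ (⟨e, he⟩ : E)).map φ).Separable := h3.map
    refine h4.of_dvd (minpoly.dvd L e ?_)
    have h5 := minpoly.aeval F₀ (⟨e, he⟩ : E)
    have h6 := congrArg (E.val : E →+* K) h5
    rw [map_zero, aeval_def, hom_eval₂] at h6
    rw [aeval_def, eval₂_map]
    exact h6
  have hsepL : Algebra.IsSeparable L K := by
    rw [← separableClosure.eq_top_iff, eq_top_iff]
    intro a _
    have h3 : a ∈ IntermediateField.adjoin k (E : Set K) := by rw [hFD.gen]; trivial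
    have h4 : IntermediateField.adjoin k (E : Set K) ≤
        (separableClosure L K).restrictScalars k := by
      rw [IntermediateField.adjoin_le_iff]
      exact hEsep
    exact h4 h3
  have hcard : s.card ≤ n := by
    have h3 : AlgebraicIndependent κ z := by
      have h4 : AlgebraicIndependent κ fun i => ((s.equivFin.symm i : s) : E) :=
        hs.1.comp _ s.equivFin.symm.injective
      exact h4.map' (f := E.val) E.val.injective
    have h4 := hFD.card_le hzE h3
    simpa using h4
  have hbasis : IsTranscendenceBasis k z := by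
    have h3 : Algebra.IsAlgebraic L K := inferInstance
    have := IntermediateField.isAlgebraic_adjoin_iff_top.1 h3
    refine Algebra.IsAlgebraic.isTranscendenceBasis_of_lift_le_trdeg_of_finite k z ?_
    rw [htr]
    simpa using hcard
  have hcardn : s.card = n := by
    have h3 := hbasis.lift_cardinalMk_eq_trdeg
    rw [htr] at h3
    simpa using h3
  have hfd : FiniteDimensional F₀ E := by
    obtain ⟨T, hT⟩ := IntermediateField.fg_top κ E
    have h3 : IntermediateField.adjoin F₀ (T : Set E) = ⊤ := by
      rw [eq_top_iff]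
      intro a _
      have h4 : a ∈ IntermediateField.adjoin κ (T : Set E) := by rw [hT]; trivial
      have h5 : IntermediateField.adjoin κ (T : Set E) ≤
          (IntermediateField.adjoin F₀ (T : Set E)).restrictScalars κ := by
        rw [IntermediateField.adjoin_le_iff]
        exact IntermediateField.subset_adjoin F₀ (T : Set E)
      exact h5 h4
    have h4 : FiniteDimensional F₀ (IntermediateField.adjoin F₀ (T : Set E)) :=
      IntermediateField.finiteDimensional_adjoin fun a _ => Algebra.IsIntegral.isIntegral a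
    rw [h3] at h4
    exact IntermediateField.topEquiv.toLinearEquiv.finiteDimensional
  obtain ⟨θ, hθ⟩ := Field.exists_primitive_element F₀ E
  have hθint : IsIntegral F₀ θ := Algebra.IsIntegral.isIntegral θ
  have hval : ∀ (P : Polynomial F₀) (e : E), ((aeval e P : E) : K) =
      (P.map (algebraMap F₀ K)).eval (e : K) := by
    intro P e
    rw [eval_map, aeval_def]
    have h6 := hom_eval₂ P (algebraMap F₀ E) (E.val : E →+* K) e
    exact h6
  have hco : ∀ (P : Polynomial F₀) (i : ℕ), ∃ r ∈ Algebra.adjoin κ (Set.range z),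
      ∃ t ∈ Algebra.adjoin κ (Set.range z), t ≠ 0 ∧
        (P.map (algebraMap F₀ K)).coeff i = r / t := by
    intro P i
    rw [coeff_map]
    exact hF _ (P.coeff i).2
  let g : Fin n ≃ Fin s.card := finCongr hcardn.symm
  have hrg : Set.range (fun i => z (g i)) = Set.range z := g.surjective.range_comp z
  refine ⟨fun i => z (g i), (θ : K), (minpoly F₀ θ).map (algebraMap F₀ K), ?_⟩
  constructor
  · exact fun i => hzE _
  · exact hbasis.1.comp g g.injective
  · rw [hrg]
    exact hsepL
  · exact θ.2
  · exact (minpoly.monic hθint).map _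
  · rw [hrg]
    exact hco _
  · rw [← hval, minpoly.aeval]
    rfl
  · rw [derivative_map, ← hval]
    intro h0
    have h3 : (minpoly F₀ θ).Separable := Algebra.IsSeparable.isSeparable F₀ θ
    exact h3.aeval_derivative_ne_zero (minpoly.aeval F₀ θ) (Subtype.ext h0)
  · rw [hrg]
    intro e he
    have h3 : (⟨e, he⟩ : E) ∈ Algebra.adjoin F₀ {θ} := by
      rw [← IntermediateField.adjoin_simple_toSubalgebra_of_isAlgebraic hθint.isAlgebraic, hθ]
      trivial
    rw [Algebra.adjoin_singleton_eq_range_aeval] at h3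
    obtain ⟨P, hP⟩ := h3
    refine ⟨P.map (algebraMap F₀ K), hco P, ?_⟩
    rw [← hval]
    exact (congrArg (fun a : E => (a : K)) hP).symm
  · rw [hrg]
    intro e he
    refine ⟨(minpoly F₀ (⟨e, he⟩ : E)).map (algebraMap F₀ K), hco _, ?_, ?_⟩
    · rw [← hval _ (⟨e, he⟩ : E), minpoly.aeval]
      rfl
    · rw [derivative_map, ← hval _ (⟨e, he⟩ : E)]
      intro h0
      have h3 : (minpoly F₀ (⟨e, he⟩ : E)).Separable :=
        Algebra.IsSeparable.isSeparable F₀ (⟨e, he⟩ : E)
      exact h3.aeval_derivative_ne_zero (minpoly.aeval F₀ _) (Subtype.ext h0)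
  · exact hFD.gen

end Pool.Agent.TGJ70
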