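import Pool.Agent.Lib.TG_h35.J7b
import Pool.Agent.Lib.TG.Basic

/-!
# TANK G, block C, row (O), part 1: valuations with generic centre are trivial on the field of
definition
-/

set_option autoImplicit false

open Polynomial

namespace Pool.Agent.TGJ70

open Pool.Agent.TG (ncl Ov ZDim IsMin IsModel NV RV)
open Pool.Agent.TGFOD
open Pool.Agent.TGJ

universe u

variable {k K : Type u} [Field k] [Field K] [Algebra k K] {κ : Subfield k}
  {E : IntermediateField κ K} {n : ℕ} {x : Fin n → K} {V : ValuationSubring K}

theorem val_k (hV : Ov k V) {c : k} (hc : c ≠ 0) : V.valuation (algebraMap k K c) = 1 := by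
  have h1 := (V.valuation_le_one_iff _).2 (hV c)
  have h2 := (V.valuation_le_one_iff _).2 (hV c⁻¹)
  rw [map_inv₀, map_inv₀] at h2
  have h0 : V.valuation (algebraMap k K c) ≠ 0 :=
    (Valuation.ne_zero_iff _).2 ((_root_.map_ne_zero _).2 hc)
  exact le_antisymm h1 ((inv_le_one₀ (zero_lt_iff.2 h0)).1 h2)

/-- An element with nonzero residue has value one. -/
theorem val_one_of_res (hV : Ov k V) {a : K} {c : k} (hc : c ≠ 0)
    (h : V.valuation (a - algebraMap k K c) < 1) : V.valuation a = 1 := by
  have h1 : a = algebraMap k K c + (a - algebraMap k K c) := by ring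
  rw [h1, Valuation.map_add_eq_of_lt_left, val_k hV hc]
  rw [val_k hV hc]
  exact h

/-- Elements of the field generated by elements with algebraically independent residues. -/
theorem val_one_adjoin (hV : Ov k V) {ι : Type*} {e : ι → K} {c : ι → k}
    (h : ∀ i, V.valuation (e i - algebraMap k K (c i)) < 1) (hc : AlgebraicIndependent κ c)
    {a : K} (ha : a ∈ IntermediateField.adjoin κ (Set.range e)) (ha0 : a ≠ 0) :
    ∃ P Q : MvPolynomial ι κ, V.valuation (MvPolynomial.aeval e P) = 1 ∧
      V.valuation (MvPolynomial.aeval e Q) = 1 ∧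
      a = MvPolynomial.aeval e P / MvPolynomial.aeval e Q := by
  have hval : ∀ P : MvPolynomial ι κ, P ≠ 0 → V.valuation (MvPolynomial.aeval e P) = 1 := by
    intro P hP
    have h1 : MvPolynomial.aeval c P ≠ 0 := fun h0 =>
      hP ((injective_iff_map_eq_zero _).1 (algebraicIndependent_iff_injective_aeval.1 hc) P h0)
    exact val_one_of_res hV h1 (val_aeval hV h P)
  obtain ⟨r, hr, s, hs, hrs⟩ := IntermediateField.mem_adjoin_iff_div.1 ha
  rw [Algebra.adjoin_range_eq_range_aeval] at hr hs
  obtain ⟨P, rfl⟩ := hr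
  obtain ⟨Q, rfl⟩ := hs
  have hrs' : a = MvPolynomial.aeval e P / MvPolynomial.aeval e Q := hrs
  refine ⟨P, Q, hval P ?_, hval Q ?_, hrs'⟩
  · rintro rfl
    rw [map_zero, zero_div] at hrs'
    exact ha0 hrs'
  · rintro rfl
    rw [map_zero, div_zero] at hrs'
    exact ha0 hrs'

open scoped Classical in
/-- **The valuation is trivial on `E`** if the residues of elements `ε j` of `E` have transcendence
degree `n` over `κ`; and `E` is contained in every integrally closed local ring containing the
`ε j`. -/
theorem generic_centre (hFD : FD κ E x) (hV : Ov k V) {J : Type} [Fintype J]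
    {ε : J → K} (hε : ∀ j, ε j ∈ E) {c : J → k}
    (hc : ∀ j, V.valuation (ε j - algebraMap k K (c j)) < 1)
    (hn : n ≤ frk κ (Finset.univ.image c)) :
    (∀ a ∈ E, a ≠ 0 → V.valuation a = 1) ∧
      ∀ R : Subalgebra k K, (∀ j, ε j ∈ R) → (∀ a ∈ R, V.valuation a = 1 → a⁻¹ ∈ R) →
        ∀ a ∈ E, a ∈ ncl R := by
  classical
  obtain ⟨b, hbs, hcard, hb0, -⟩ := exists_basis κ (Finset.univ.image c)
  let g : Fin b.card ≃ b := b.equivFin.symm
  have hb : AlgebraicIndependent κ fun i => ((g i : b) : k) := hb0.comp g g.injective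
  have h1 : ∀ i, ∃ j, c j = ((g i : b) : k) := fun i => by
    obtain ⟨j, -, hj⟩ := Finset.mem_image.1 (hbs (g i).2)
    exact ⟨j, hj⟩
  choose f hf using h1
  let e : Fin b.card → K := fun i => ε (f i)
  have he : ∀ i, V.valuation (e i - algebraMap k K ((g i : b) : k)) < 1 := fun i => by
    have h2 := hc (f i)
    rw [hf] at h2
    exact h2
  have hei : AlgebraicIndependent κ e := indep_of_residue hV he hb
  have heE : ∀ i, e i ∈ E := fun i => hε _
  -- every element of `E` is algebraic over `κ(e)`
  have halg : ∀ a ∈ E, IsAlgebraic (IntermediateField.adjoin κ (Set.range e)) a := by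
    intro a ha
    have h2 : frk κ (insert a (Finset.univ.image e)) = frk κ (Finset.univ.image e) := by
      refine le_antisymm ?_ (frk_mono κ (Finset.subset_insert _ _))
      have h3 : frk κ (Finset.univ.image e) = b.card := by
        rw [(algebraicIndependent_iff_frk κ e).1 hei, Fintype.card_fin]
      have h4 : frk κ (insert a (Finset.univ.image e)) ≤ frk κ (Finset.univ.image x) := by
        apply frk_le_of_algebraic
        intro y hy
        have h5 : ((Finset.univ.image x : Finset K) : Set K) = Set.range x := by simp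
        rw [h5]
        rcases Finset.mem_insert.1 hy with rfl | hy
        · exact hFD.alg _ ha
        · obtain ⟨i, -, rfl⟩ := Finset.mem_image.1 hy
          exact hFD.alg _ (heE i)
      have h5 : frk κ (Finset.univ.image x) ≤ n :=
        (frk_le_card κ _).trans (Finset.card_image_le.trans (by simp))
      omega
    rw [frk_insert_eq_iff] at h2
    have h3 : ((Finset.univ.image e : Finset K) : Set K) = Set.range e := by simp
    rwa [h3] at h2
  have hint : ∀ R : Subalgebra k K, (∀ j, ε j ∈ R) → (∀ a ∈ R, V.valuation a = 1 → a⁻¹ ∈ R) →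
      ∀ a ∈ E, a ∈ ncl R := by
    intro R hR hinv a ha
    have hF : ∀ y ∈ IntermediateField.adjoin κ (Set.range e), y ∈ R := by
      intro y hy
      by_cases hy0 : y = 0
      · rw [hy0]
        exact R.zero_mem
      obtain ⟨P, Q, -, hQ, rfl⟩ := val_one_adjoin hV he hb hy hy0
      have hmem : ∀ P : MvPolynomial (Fin b.card) κ, MvPolynomial.aeval e P ∈ R := by
        intro P
        induction P using MvPolynomial.induction_on with
        | C a =>
          rw [MvPolynomial.algHom_C]
          exact R.algebraMap_mem (a : k)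
        | add p q hp hq => rw [map_add]; exact R.add_mem hp hq
        | mul_X p i hp =>
          rw [map_mul, MvPolynomial.aeval_X]
          exact R.mul_mem hp (hR _)
      rw [div_eq_mul_inv]
      exact R.mul_mem (hmem P) (hinv _ (hmem Q) hQ)
    obtain ⟨p, hp, hpa⟩ := (isAlgebraic_iff_isIntegral.1 (halg a ha))
    refine Pool.Agent.TG.mem_ncl_of_root (p.map (algebraMap _ K)) (hp.map _) ?_ ?_
    · intro i
      rw [coeff_map]
      exact Pool.Agent.TG.le_ncl R (hF _ (p.coeff i).2)
    · rw [eval_map]
      exact hpa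
  refine ⟨fun a ha ha0 => ?_, hint⟩
  have hV' : ∀ y ∈ E, y ∈ V := by
    intro y hy
    have h2 := hint (Pool.Agent.TG.valg hV) (fun j => ?_) (fun a ha h => ?_) y hy
    · exact Pool.Agent.TG.ncl_mem (R := Pool.Agent.TG.valg hV) (fun a ha => ha) y h2
    · rw [Pool.Agent.TG.mem_valg]
      have h3 : ε j = (ε j - algebraMap k K (c j)) + algebraMap k K (c j) := by ring
      rw [h3]
      exact V.add_mem _ _ ((V.valuation_le_one_iff _).1 (hc j).le) (hV _)
    · rw [Pool.Agent.TG.mem_valg]
      rw [← V.valuation_le_one_iff, map_inv₀, h, inv_one]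
  have h1 := (V.valuation_le_one_iff _).2 (hV' a ha)
  have h2 := (V.valuation_le_one_iff _).2 (hV' a⁻¹ (E.inv_mem ha))
  rw [map_inv₀] at h2
  have h0 : V.valuation a ≠ 0 := (Valuation.ne_zero_iff _).2 ha0
  exact le_antisymm h1 ((inv_le_one₀ (zero_lt_iff.2 h0)).1 h2)

end Pool.Agent.TGJ70
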